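import Pool.Agent.Helper395.AC.Band

/-!
# MP_f5e7e2_co: both Pfaffian identities for Al-Salam-Carlitz moments
-/

set_option autoImplicit false

namespace Pool.Agent.Results.MP_f5e7e2_co.PfaffianIdentities

open Finset Pool.Agent.Helper395.AC

variable {K : Type*} [Field K]

/-- `(q;q)_m = ∏_{i=1}^m (1 - q^i)` -/
def qpoch (q : K) (m : ℕ) : K := ∏ i ∈ Icc 1 m, (1 - q ^ i)

/-- the Gaussian binomial `[m choose k]_q` -/
def gauss (q : K) (m k : ℕ) : K := qpoch q m / (qpoch q k * qpoch q (m - k))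

/-- `g_r` for an integer `r`, with value `0` for negative `r` -/
def g (a q : K) (r : ℤ) : K :=
  if r < 0 then 0 else ∑ j ∈ range (r.toNat + 1), gauss q r.toNat j * a ^ j

/-- the Pfaffian `(1/(2^n n!)) ∑_σ sgn σ ∏_{k=1}^n A_{σ(2k-1),σ(2k)}`; the rows and columns
`1, ..., 2n` are numbered `0, ..., 2n-1` here -/
def Pf (n : ℕ) (A : Fin (2 * n) → Fin (2 * n) → K) : K :=
  1 / (2 ^ n * (n.factorial : K)) * ∑ σ : Equiv.Perm (Fin (2 * n)),
    ((Equiv.Perm.sign σ : ℤ) : K) * ∏ k : Fin n, A (σ ⟨2 * k, by omega⟩) (σ ⟨2 * k + 1, by omega⟩)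

/-- `e(n) = m(16m²-1)/3 - (-1)^n 4m²`, `m = ⌊n/2⌋` -/
def e (n : ℕ) : ℤ :=
  ((n / 2 : ℕ) : ℤ) * (16 * ((n / 2 : ℕ) : ℤ) ^ 2 - 1) / 3 - (-1) ^ n * (4 * ((n / 2 : ℕ) : ℤ) ^ 2)

/-- `P_n = ∏_{k=1}^n (q;q)_{2k-1}` -/
def P (q : K) (n : ℕ) : K := ∏ k ∈ Icc 1 n, qpoch q (2 * k - 1)

/-- `c_k = ⌊(n-2k)²/2⌋` -/
def c (n k : ℕ) : ℤ := ((n : ℤ) - 2 * k) ^ 2 / 2

theorem qpoch_eq (q : K) (m : ℕ) : qpoch q m = poch q m := by
  rw [qpoch, poch, range_eq_Ico, prod_Ico_add' (fun i => 1 - q ^ i) 0 m 1]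
  rfl

theorem poch_ne {q : K} (hq : ∀ m : ℕ, 0 < m → q ^ m ≠ 1) (m : ℕ) : poch q m ≠ 0 := by
  rw [poch, prod_ne_zero_iff]
  intro i _ h
  exact hq (i + 1) (by omega) (sub_eq_zero.1 h).symm

theorem gauss_eq {q : K} (hq : ∀ m : ℕ, 0 < m → q ^ m ≠ 1) {m k : ℕ} (h : k ≤ m) :
    gauss q m k = gb q m k := by
  rw [gauss, qpoch_eq, qpoch_eq, qpoch_eq, div_eq_iff, ← gb_poch q m k h]
  · ring
  · exact mul_ne_zero (poch_ne hq _) (poch_ne hq _)

theorem g_eq {a q : K} (hq : ∀ m : ℕ, 0 < m → q ^ m ≠ 1) (r : ℕ) : g a q (r : ℤ) = gs a q r := by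
  rw [g, if_neg (by omega), Int.toNat_natCast, gs]
  refine sum_congr rfl fun j hj => ?_
  rw [gauss_eq hq (by rw [mem_range] at hj; omega)]

theorem two_choose (k : ℕ) : 2 * ((k.choose 2 : ℕ) : ℤ) = k * (k - 1) := by
  induction k with
  | zero => simp
  | succ k ih => rw [choose_two_succ]; push_cast; linarith

/-- the exponent `∑_{k<n} k(2k-1)` -/
def E1 (n : ℕ) : ℕ := ∑ k ∈ range n, (2 * k).choose 2

theorem E1_closed (n : ℕ) : 6 * (E1 n : ℤ) = n * (n - 1) * (4 * n - 5) := by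
  induction n with
  | zero => simp [E1]
  | succ n ih =>
    have h : E1 (n + 1) = E1 n + (2 * n).choose 2 := by rw [E1, sum_range_succ]; rfl
    have h2 := two_choose (2 * n)
    rw [h]
    push_cast at h2 ⊢
    linear_combination ih + 3 * h2

theorem third (m : ℕ) : ∃ s : ℤ, (m : ℤ) * (16 * (m : ℤ) ^ 2 - 1) = 3 * s := by
  induction m with
  | zero => exact ⟨0, by simp⟩
  | succ m ih =>
    obtain ⟨s, hs⟩ := ih
    refine ⟨s + (16 * m ^ 2 + 16 * m + 5), ?_⟩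
    push_cast
    linear_combination hs

theorem e_eq {n : ℕ} (hn : 1 ≤ n) :
    e n = ((E1 n + 2 * (n / 2) * ((n - 1) / 2) : ℕ) : ℤ) := by
  obtain ⟨s, hs⟩ := third (n / 2)
  rw [e, hs, Int.mul_ediv_cancel_left _ (by norm_num)]
  have h1 := E1_closed n
  rcases Nat.even_or_odd' n with ⟨m, rfl | rfl⟩
  · obtain ⟨l, rfl⟩ : ∃ l, m = l + 1 := ⟨m - 1, by omega⟩
    have e1 : 2 * (l + 1) / 2 = l + 1 := by omega
    have e2 : (2 * (l + 1) - 1) / 2 = l := by omega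
    rw [e1] at hs ⊢
    rw [e2]
    have e3 : (-1 : ℤ) ^ (2 * (l + 1)) = 1 := by rw [pow_mul]; simp
    rw [e3]
    push_cast at hs h1 ⊢
    have h6 : 6 * (s - 1 * (4 * ((l : ℤ) + 1) ^ 2)) = 6 * ((E1 (2 * (l + 1)) : ℤ) +
      2 * ((l : ℤ) + 1) * l) := by
      linear_combination (-2 : ℤ) * hs - h1
    linarith
  · have e1 : (2 * m + 1) / 2 = m := by omega
    have e2 : (2 * m + 1 - 1) / 2 = m := by omega
    rw [e1] at hs ⊢
    rw [e2]
    have e3 : (-1 : ℤ) ^ (2 * m + 1) = -1 := by rw [pow_succ, pow_mul]; simp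
    rw [e3]
    push_cast at hs h1 ⊢
    have h6 : 6 * (s - (-1) * (4 * (m : ℤ) ^ 2)) = 6 * ((E1 (2 * m + 1) : ℤ) +
      2 * (m : ℤ) * m) := by
      linear_combination (-2 : ℤ) * hs - h1
    linarith

theorem c_eq {n k : ℕ} (hk : k ≤ n) :
    ((2 * (n / 2) * ((n - 1) / 2) : ℕ) : ℤ) + c n k =
      ((2 * (k.choose 2 + (n - k).choose 2) : ℕ) : ℤ) := by
  have h1 := two_choose k
  have h2 := two_choose (n - k)
  obtain ⟨l, rfl⟩ : ∃ l, n = k + l := ⟨n - k, by omega⟩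
  rw [Nat.add_sub_cancel_left] at h2 ⊢
  have h3 : ((2 * (k.choose 2 + l.choose 2) : ℕ) : ℤ) = k * (k - 1) + l * (l - 1) := by
    push_cast; linarith
  rw [h3, c]
  rcases Nat.even_or_odd' (k + l) with ⟨m, hm | hm⟩
  · have hl : (l : ℤ) = 2 * m - k := by
      have : ((k + l : ℕ) : ℤ) = ((2 * m : ℕ) : ℤ) := by rw [hm]
      push_cast at this; linarith
    rcases Nat.eq_zero_or_pos m with h0 | h0
    · subst h0
      have hk0 : k = 0 := by omega
      have hl0 : l = 0 := by omega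
      subst hk0 hl0
      simp
    · have e1 : (k + l) / 2 = m := by omega
      have e2 : (k + l - 1) / 2 = m - 1 := by omega
      have e3 : ((m - 1 : ℕ) : ℤ) = m - 1 := by omega
      rw [e1, e2]
      push_cast
      rw [e3, hl]
      have e4 : ((k : ℤ) + (2 * m - k) - 2 * k) ^ 2 = 2 * (2 * (m - k) ^ 2) := by ring
      rw [e4, Int.mul_ediv_cancel_left _ (by norm_num)]
      ring
  · have hl : (l : ℤ) = 2 * m + 1 - k := by
      have : ((k + l : ℕ) : ℤ) = ((2 * m + 1 : ℕ) : ℤ) := by rw [hm]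
      push_cast at this; linarith
    have e1 : (k + l) / 2 = m := by omega
    have e2 : (k + l - 1) / 2 = m := by omega
    rw [e1, e2]
    push_cast
    rw [hl]
    have e4 : ((k : ℤ) + (2 * m + 1 - k) - 2 * k) ^ 2 =
        1 + (2 * (m - k) ^ 2 + 2 * (m - k)) * 2 := by ring
    rw [e4, Int.add_mul_ediv_right _ _ (by norm_num)]
    norm_num
    ring

theorem c_nonneg (n k : ℕ) : 0 ≤ c n k := by
  rw [c]; positivity

theorem TT_eq (a q : K) (n : ℕ) : TT a q n = a ^ (n * (n - 1)) * q ^ E1 n * P q n := by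
  induction n with
  | zero => simp [TT, E1, P]
  | succ n ih =>
    have h1 : E1 (n + 1) = E1 n + (2 * n).choose 2 := by rw [E1, sum_range_succ]; rfl
    have h2 : P q (n + 1) = P q n * poch q (2 * n + 1) := by
      rw [P, prod_Icc_succ_top (by omega), qpoch_eq]; rfl
    have h3 : (n + 1) * (n + 1 - 1) = n * (n - 1) + 2 * n := by
      rw [Nat.add_sub_cancel]
      rcases n with _ | n
      · rfl
      · rw [Nat.add_sub_cancel]; ring
    rw [TT_succ, ih, h1, h2, h3, hh, poch_succ q (2 * n), pow_add, pow_add, neg_pow a (2 * n),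
      pow_mul (-1 : K)]
    simp
    ring

/-- **Both identities hold for every `n`.** -/
theorem result {K : Type*} [Field K] [CharZero K] (a q : K) (hq : ∀ m : ℕ, 0 < m → q ^ m ≠ 1)
    (n : ℕ) (hn : 1 ≤ n) :
    Pf n (fun i j => (q ^ (i : ℕ) - q ^ (j : ℕ)) * g a q ((i : ℤ) + (j : ℤ) - 1)) =
        a ^ (n * (n - 1)) * q ^ (e n - 2 * ((n / 2 : ℕ) : ℤ) * (((n - 1) / 2 : ℕ) : ℤ)) * P q n ∧
      Pf n (fun i j => (q ^ (i : ℕ) - q ^ (j : ℕ)) * g a q ((i : ℤ) + (j : ℤ))) =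
        a ^ (n * (n - 1)) * q ^ (e n) * P q n *
          ∑ k ∈ range (n + 1), q ^ (c n k) * gauss (q ^ 2) n k * a ^ k := by
  have hq2 : ∀ m : ℕ, 0 < m → (q ^ 2) ^ m ≠ 1 := by
    intro m hm
    rw [← pow_mul]
    exact hq _ (by omega)
  have hfac : (2 ^ n * (n.factorial : K)) ≠ 0 :=
    mul_ne_zero (pow_ne_zero _ two_ne_zero) (Nat.cast_ne_zero.2 n.factorial_ne_zero)
  constructor
  · have h1 := sum1 a q n
    have h2 : e n - 2 * ((n / 2 : ℕ) : ℤ) * (((n - 1) / 2 : ℕ) : ℤ) = ((E1 n : ℕ) : ℤ) := by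
      rw [e_eq hn]; push_cast; ring
    rw [h2, zpow_natCast, ← TT_eq, Pf]
    rw [one_div, inv_mul_eq_iff_eq_mul₀ hfac, ← h1]
    refine sum_congr rfl fun σ _ => ?_
    congr 1
    refine prod_congr rfl fun k _ => ?_
    generalize ((σ ⟨2 * k, by omega⟩ : Fin (2 * n)) : ℕ) = i
    generalize ((σ ⟨2 * k + 1, by omega⟩ : Fin (2 * n)) : ℕ) = j
    rcases Nat.eq_zero_or_pos (i + j) with h | h
    · have hi : i = 0 := by omega
      have hj : j = 0 := by omega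
      subst hi hj
      simp
    · have h3 : (i : ℤ) + (j : ℤ) - 1 = ((i + j - 1 : ℕ) : ℤ) := by omega
      rw [h3, g_eq hq]
  · have h1 := sum2 a q n
    have h2 : q ^ (e n) = q ^ (E1 n + 2 * (n / 2) * ((n - 1) / 2)) := by
      rw [e_eq hn, zpow_natCast]
    have h4 : a ^ (n * (n - 1)) * q ^ (e n) * P q n *
          ∑ k ∈ range (n + 1), q ^ (c n k) * gauss (q ^ 2) n k * a ^ k =
        TT a q n * ff a (q ^ 2) n := by
      rw [h2, TT_eq, ff, mul_sum, mul_sum]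
      refine sum_congr rfl fun k hk => ?_
      rw [mem_range] at hk
      rw [gauss_eq hq2 (by omega)]
      obtain ⟨d, hd⟩ := Int.eq_ofNat_of_zero_le (c_nonneg n k)
      have h5 := c_eq (n := n) (k := k) (by omega)
      rw [hd] at h5
      have h6 : 2 * (n / 2) * ((n - 1) / 2) + d = 2 * (k.choose 2 + (n - k).choose 2) := by
        exact_mod_cast h5
      rw [hd, zpow_natCast, ← pow_mul, ← h6]
      ring
    rw [h4, Pf]
    rw [one_div, inv_mul_eq_iff_eq_mul₀ hfac, ← h1]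
    refine sum_congr rfl fun σ _ => ?_
    congr 1
    refine prod_congr rfl fun k _ => ?_
    generalize ((σ ⟨2 * k, by omega⟩ : Fin (2 * n)) : ℕ) = i
    generalize ((σ ⟨2 * k + 1, by omega⟩ : Fin (2 * n)) : ℕ) = j
    have h3 : (i : ℤ) + (j : ℤ) = ((i + j : ℕ) : ℤ) := by omega
    rw [h3, g_eq hq]

end Pool.Agent.Results.MP_f5e7e2_co.PfaffianIdentities
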